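import Pool.Agent.Helper95A.Conv

/-!
# The de Almeida-Thouless line of the Sherrington-Kirkpatrick model

For every inverse temperature `β > 0` and every external field `h`, the minimiser of the Parisi
functional (the Parisi measure) is a point mass if and only if the de Almeida-Thouless condition
`β ^ 2 * E cosh(β z sqrt(2 q) + h) ^ (-4) ≤ 1 / 2` holds, where `q` is the largest solution in
`[0,1]` of `q = E tanh(β z sqrt(2 q) + h) ^ 2`.

The definitions below restate those of the problem. The solution of the Parisi equation is taken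
in a classical sense in space and in the integrated sense in time; its existence and uniqueness for
every probability measure on `[0,1]` is part of the theorem.

Outline of the proof. Write `Γ(s)` for the second moment of the space derivative of the point mass
solution along its optimally controlled diffusion.

* Comparison (doubling of variables) shows that the value of the functional at `ν` minus its value
  at the point mass at `q` is at least `β ^ 2 * ∫ (ν[0,s] - 1[s ≥ q]) (Γ(s) - s) ds`.
* Below `q`, `Γ(s) > s` follows from a sharp second order Gaussian Poincare inequality and the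
  de Almeida-Thouless condition at `q`.
* Above `q`, `Γ(s) - q` is the integral of `2 β ^ 2 * J(r)`, where `J(0) = E cosh ^ (-4)`, and
  `J(r) < 1 / (2 β ^ 2)` follows from a correlation inequality together with the fixed point
  equation and the de Almeida-Thouless condition.
* Conversely a minimising point mass has a nonnegative first variation towards all other point
  masses, which forces the fixed point equation, the de Almeida-Thouless condition and, by the
  Latala-Guerra monotonicity, that the point is the largest fixed point.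
-/

set_option autoImplicit false

open MeasureTheory ProbabilityTheory Set Filter Topology

namespace Pool.Agent.Results.MP_aa848e_pr.ATLine

/-- `μ` is a Borel probability measure on the real line carried by `[0,1]`. -/
def OnUnitInterval (μ : Measure ℝ) : Prop := IsProbabilityMeasure μ ∧ μ (Icc 0 1) = 1

/-- The distribution function `t ↦ μ((-∞, t])`. -/
noncomputable def distr (μ : Measure ℝ) (t : ℝ) : ℝ := (μ (Iic t)).toReal

/-- `f` solves the Parisi equation
`∂ₜ f = -β ^ 2 (∂ₓₓ f + ζ(t) (∂ₓ f) ^ 2)` on `[0,1] × ℝ`, `f(1,x) = log cosh x`: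
for every time `t` the function `f(t,·)` is twice continuously differentiable, the functions `f`,
`∂ₓ f` and `∂ₓₓ f` are continuous on `[0,1] × ℝ`, the slope `∂ₓ f` is bounded, the terminal
condition holds, and the equation holds integrated over `[t,1]` for every `t` and every `x`. -/
structure ParisiSolution (β : ℝ) (ζ : ℝ → ℝ) (f : ℝ → ℝ → ℝ) : Prop where
  smooth : ∀ t ∈ Icc (0:ℝ) 1, ContDiff ℝ 2 (f t)
  cont : ContinuousOn (fun p : ℝ × ℝ => f p.1 p.2) (Icc (0:ℝ) 1 ×ˢ univ)
  cont_x : ContinuousOn (fun p : ℝ × ℝ => deriv (f p.1) p.2) (Icc (0:ℝ) 1 ×ˢ univ)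
  cont_xx : ContinuousOn (fun p : ℝ × ℝ => deriv (deriv (f p.1)) p.2) (Icc (0:ℝ) 1 ×ˢ univ)
  slope : ∃ C : ℝ, ∀ t ∈ Icc (0:ℝ) 1, ∀ x, |deriv (f t) x| ≤ C
  terminal : ∀ x, f 1 x = Real.log (Real.cosh x)
  equation : ∀ t ∈ Icc (0:ℝ) 1, ∀ x, f t x = f 1 x +
    β ^ 2 * ∫ s in t..1, (deriv (deriv (f s)) x + ζ s * deriv (f s) x ^ 2)

open Classical in
/-- The solution of the Parisi equation with parameter the distribution function of `μ`. -/
noncomputable def solution (β : ℝ) (μ : Measure ℝ) : ℝ → ℝ → ℝ :=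
  if hs : ∃ f, ParisiSolution β (distr μ) f then hs.choose else 0

/-- The Parisi functional `log 2 + f_μ(0,h) - β ^ 2 ∫₀¹ μ([0,t]) t dt`. -/
noncomputable def parisi (β h : ℝ) (μ : Measure ℝ) : ℝ :=
  Real.log 2 + solution β μ 0 h - β ^ 2 * ∫ t in (0:ℝ)..1, distr μ t * t

/-- `μ` is a Parisi measure: it minimises the Parisi functional over all probability measures
on `[0,1]`. -/
def IsParisiMeasure (β h : ℝ) (μ : Measure ℝ) : Prop :=
  OnUnitInterval μ ∧ ∀ ν : Measure ℝ, OnUnitInterval ν → parisi β h μ ≤ parisi β h ν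

/-- The solutions `q ∈ [0,1]` of `q = E tanh(β z sqrt(2 q) + h) ^ 2`, `z` standard Gaussian. -/
def fixedPoints (β h : ℝ) : Set ℝ :=
  {q | q ∈ Icc (0:ℝ) 1 ∧
    q = ∫ z, Real.tanh (β * z * Real.sqrt (2 * q) + h) ^ 2 ∂(gaussianReal 0 1)}

/-- The de Almeida-Thouless condition `β ^ 2 E cosh(β z sqrt(2 q) + h) ^ (-4) ≤ 1 / 2`. -/
def ATCondition (β h q : ℝ) : Prop :=
  β ^ 2 * ∫ z, (Real.cosh (β * z * Real.sqrt (2 * q) + h) ^ 4)⁻¹ ∂(gaussianReal 0 1) ≤ 1 / 2

open Pool.Agent.Helper95A in
theorem sol_iff {β : ℝ} {ζ : ℝ → ℝ} {f : ℝ → ℝ → ℝ} :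
    ParisiSolution β ζ f ↔ IsParisiSol β ζ f := by
  constructor
  · intro h
    exact ⟨h.smooth, h.cont, h.cont_x, h.cont_xx, h.slope, h.terminal, fun t ht x => by
      rw [← h.terminal x]; exact h.equation t ht x⟩
  · intro h
    exact ⟨h.smooth, h.cont, h.cont_x, h.cont_xx, h.slope, h.terminal, fun t ht x => by
      rw [h.terminal x]; exact h.pde t ht x⟩

open Pool.Agent.Helper95A in
theorem distr_isCdf {μ : Measure ℝ} (hμ : OnUnitInterval μ) : IsCdf (distr μ) := by
  obtain ⟨hp, h1⟩ := hμ
  have hcompl : μ (Icc (0:ℝ) 1)ᶜ = 0 := (prob_compl_eq_zero_iff measurableSet_Icc).2 h1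
  have e : ∀ t, distr μ t = cdf μ t := fun t => (cdf_eq_real μ t).symm
  refine ⟨fun s t hst => ?_, fun t => ?_, fun t ht => ?_, fun t ht => ?_⟩
  · rw [e, e]; exact monotone_cdf μ hst
  · have := (cdf μ).right_continuous t
    exact this.congr (fun s _ => e s) (e t)
  · have : μ (Iic t) = 0 := by
      refine measure_mono_null (fun s hs => ?_) hcompl
      intro hs'
      exact absurd (hs'.1.trans hs) (not_le.2 ht)
    simp [distr, this]
  · have : μ (Iic t) = 1 := by
      refine le_antisymm prob_le_one ?_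
      rw [← h1]
      exact measure_mono fun s hs => hs.2.trans ht
    simp [distr, this]

theorem onUnit_dirac {r : ℝ} : OnUnitInterval (Measure.dirac r) ↔ r ∈ Icc (0:ℝ) 1 := by
  constructor
  · rintro ⟨_, h⟩
    by_contra hc
    rw [Measure.dirac_apply' r measurableSet_Icc, Set.indicator_of_notMem hc] at h
    exact zero_ne_one h
  · intro h
    refine ⟨inferInstance, ?_⟩
    rw [Measure.dirac_apply' r measurableSet_Icc, Set.indicator_of_mem h]
    rfl

open Pool.Agent.Helper95A in
theorem distr_dirac (r : ℝ) : distr (Measure.dirac r) = stp r := by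
  ext t
  unfold distr stp
  rw [Measure.dirac_apply' r measurableSet_Iic]
  by_cases h : r ≤ t
  · rw [if_pos h, Set.indicator_of_mem (show r ∈ Iic t from h)]; simp
  · rw [if_neg h, Set.indicator_of_notMem (show r ∉ Iic t from h)]; simp

open Pool.Agent.Helper95A in
theorem solution_spec {β : ℝ} (hβ : β ≠ 0) {μ : Measure ℝ} (hμ : OnUnitInterval μ) :
    IsParisiSol β (distr μ) (solution β μ) := by
  have hs : ∃ f, ParisiSolution β (distr μ) f := by
    obtain ⟨f, hf⟩ := exists_sol hβ (distr_isCdf hμ)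
    exact ⟨f, sol_iff.2 hf⟩
  have : solution β μ = hs.choose := by
    unfold solution
    rw [dif_pos hs]
  rw [this]
  exact sol_iff.1 hs.choose_spec

open Pool.Agent.Helper95A in
theorem parisi_dirac {β : ℝ} (hβ : β ≠ 0) {r : ℝ} (hr : r ∈ Icc (0:ℝ) 1) (h : ℝ) :
    parisi β h (Measure.dirac r) =
      Real.log 2 + gq β r 0 h - β ^ 2 * ∫ t in (0:ℝ)..1, stp r t * t := by
  have h1 := solution_spec hβ (onUnit_dirac.2 hr)
  rw [distr_dirac] at h1
  have h2 := sol_unique (stp_isCdf hr) h1 (gq_sol hβ hr) 0 (by simp) h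
  unfold parisi
  rw [h2, distr_dirac]

open Pool.Agent.Helper95A in
theorem eq_dirac {μ : Measure ℝ} (hμ : OnUnitInterval μ) {q : ℝ}
    (h : ∀ t, distr μ t = stp q t) : μ = Measure.dirac q := by
  obtain ⟨hp, _⟩ := hμ
  refine Measure.ext_of_Iic μ _ fun t => ?_
  have h1 : distr μ t = distr (Measure.dirac q) t := by rw [h, distr_dirac]
  unfold distr at h1
  exact (ENNReal.toReal_eq_toReal_iff' (measure_ne_top _ _) (measure_ne_top _ _)).1 h1

open Pool.Agent.Helper95A in
/-- Every distribution function comes from a measure. -/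
theorem exists_measure {ζ : ℝ → ℝ} (hζ : IsCdf ζ) :
    ∃ μ : Measure ℝ, OnUnitInterval μ ∧ distr μ = ζ := by
  set F : StieltjesFunction ℝ := ⟨ζ, hζ.mono, hζ.rc⟩ with hF
  have hF' : ∀ t, F t = ζ t := fun _ => rfl
  have hbot : Tendsto F atBot (𝓝 0) := by
    refine tendsto_const_nhds.congr' ?_
    filter_upwards [eventually_lt_atBot (0:ℝ)] with t ht
    rw [hF', hζ.zero t ht]
  have htop : Tendsto F atTop (𝓝 1) := by
    refine tendsto_const_nhds.congr' ?_
    filter_upwards [eventually_ge_atTop (1:ℝ)] with t ht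
    rw [hF', hζ.one t ht]
  have huniv : F.measure univ = 1 := by
    rw [F.measure_univ hbot htop]; simp
  have hprob : IsProbabilityMeasure F.measure := ⟨huniv⟩
  refine ⟨F.measure, ⟨hprob, ?_⟩, ?_⟩
  · rw [F.measure_Icc]
    have h0 : Function.leftLim F 0 = 0 := by
      have : Tendsto F (𝓝[<] (0:ℝ)) (𝓝 0) := by
        refine tendsto_const_nhds.congr' ?_
        filter_upwards [self_mem_nhdsWithin] with t ht
        rw [hF', hζ.zero t ht]
      exact leftLim_eq_of_tendsto this
    rw [h0, hF', hζ.one 1 le_rfl]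
    simp
  · ext t
    unfold distr
    rw [F.measure_Iic hbot, sub_zero, ENNReal.toReal_ofReal (by rw [hF']; exact hζ.nonneg t), hF']

open Pool.Agent.Helper95A in
theorem sqrt_eq {β : ℝ} (hβ : 0 < β) (q h z : ℝ) :
    β * z * Real.sqrt (2 * q) + h = h + Real.sqrt (2 * β ^ 2 * q) * z := by
  have : Real.sqrt (2 * β ^ 2 * q) = β * Real.sqrt (2 * q) := by
    rw [show 2 * β ^ 2 * q = β ^ 2 * (2 * q) by ring, Real.sqrt_mul (sq_nonneg β),
      Real.sqrt_sq hβ.le]
  rw [this]; ring

open Pool.Agent.Helper95A in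
theorem fixedPoints_eq {β : ℝ} (hβ : 0 < β) (h : ℝ) :
    fixedPoints β h = {q : ℝ | q ∈ Icc (0:ℝ) 1 ∧
      q = heat (fun y => Real.tanh y ^ 2) (2 * β ^ 2 * q) h} := by
  ext q
  have e : ∫ z, Real.tanh (β * z * Real.sqrt (2 * q) + h) ^ 2 ∂(gaussianReal 0 1) =
      heat (fun y => Real.tanh y ^ 2) (2 * β ^ 2 * q) h := by
    unfold heat
    simp only [sqrt_eq hβ q h]
  change (q ∈ Icc (0:ℝ) 1 ∧
    q = ∫ z, Real.tanh (β * z * Real.sqrt (2 * q) + h) ^ 2 ∂(gaussianReal 0 1)) ↔ _
  rw [e]
  rfl

open Pool.Agent.Helper95A in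
theorem at_iff {β : ℝ} (hβ : 0 < β) (q h : ℝ) :
    ATCondition β h q ↔ 2 * β ^ 2 * heat (fun y => sc y ^ 4) (2 * β ^ 2 * q) h ≤ 1 := by
  have e : ∫ z, (Real.cosh (β * z * Real.sqrt (2 * q) + h) ^ 4)⁻¹ ∂(gaussianReal 0 1) =
      heat (fun y => sc y ^ 4) (2 * β ^ 2 * q) h := by
    unfold heat
    refine integral_congr_ae (Eventually.of_forall fun z => ?_)
    simp only [sqrt_eq hβ q h, sc, inv_pow]
  unfold ATCondition
  rw [e]
  constructor <;> intro h1 <;> linarith

open Pool.Agent.Helper95A in
/-- **The de Almeida-Thouless line.** For every `β > 0` and `h`: the Parisi equation is well posed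
for every probability measure on `[0,1]`; the largest fixed point `q` exists; some point mass
minimises the Parisi functional if and only if the de Almeida-Thouless condition holds at `q`; in
that case the point mass at `q` is the only minimiser; in particular every Parisi measure is a
point mass if and only if the de Almeida-Thouless condition holds. -/
theorem result (β h : ℝ) (hβ : 0 < β) :
    (∀ μ : Measure ℝ, OnUnitInterval μ → ∃ f, ParisiSolution β (distr μ) f ∧
      ∀ g, ParisiSolution β (distr μ) g → ∀ t ∈ Icc (0:ℝ) 1, ∀ x, g t x = f t x) ∧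
    ∃ q, IsGreatest (fixedPoints β h) q ∧
      ((∃ r : ℝ, IsParisiMeasure β h (Measure.dirac r)) ↔ ATCondition β h q) ∧
      (ATCondition β h q → ∀ μ : Measure ℝ, IsParisiMeasure β h μ ↔ μ = Measure.dirac q) ∧
      (∀ μ : Measure ℝ, IsParisiMeasure β h μ →
        ((∃ r : ℝ, μ = Measure.dirac r) ↔ ATCondition β h q)) := by
  have hβ' : β ≠ 0 := hβ.ne'
  have wp : ∀ μ : Measure ℝ, OnUnitInterval μ → ∃ f, ParisiSolution β (distr μ) f ∧
      ∀ g, ParisiSolution β (distr μ) g → ∀ t ∈ Icc (0:ℝ) 1, ∀ x, g t x = f t x := by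
    intro μ hμ
    have hc := distr_isCdf hμ
    obtain ⟨f, hf⟩ := exists_sol hβ' hc
    exact ⟨f, sol_iff.2 hf, fun g hg => sol_unique hc (sol_iff.1 hg) hf⟩
  refine ⟨wp, ?_⟩
  obtain ⟨q, hq⟩ := exists_greatest β h
  have hqI : q ∈ Icc (0:ℝ) 1 := hq.1.1
  have hfix := hq.1.2
  -- the hard direction
  have hard : ATCondition β h q → ∀ μ : Measure ℝ, IsParisiMeasure β h μ ↔
      μ = Measure.dirac q := by
    intro hAT
    rw [at_iff hβ] at hAT
    have key : ∀ ν : Measure ℝ, OnUnitInterval ν →
        parisi β h (Measure.dirac q) ≤ parisi β h ν ∧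
        (ν ≠ Measure.dirac q → parisi β h (Measure.dirac q) < parisi β h ν) := by
      intro ν hν
      have hc := distr_isCdf hν
      have h1 := lower_bound hβ' hqI hc (solution_spec hβ' hν) h
      obtain ⟨h2, h3⟩ := W_zero_gt hβ' hqI hc hfix hAT
      have i1 : IntervalIntegrable (fun s => stp q s * s) volume 0 1 :=
        ii_of_bdd (stp_mono q).measurable (fun s => by
          rw [abs_of_nonneg (stp_mem q s).1]; exact (stp_mem q s).2) continuous_id 0 1
      have i2 : IntervalIntegrable (fun s => distr ν s * s) volume 0 1 :=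
        ii_of_bdd hc.mono.measurable (fun s => by
          rw [abs_of_nonneg (hc.nonneg s)]; exact hc.le_one s) continuous_id 0 1
      have h4 : ∫ s in (0:ℝ)..1, (distr ν s - stp q s) * s =
          (∫ s in (0:ℝ)..1, distr ν s * s) - ∫ s in (0:ℝ)..1, stp q s * s := by
        rw [← intervalIntegral.integral_sub i2 i1]
        congr 1; ext s; ring
      rw [h4] at h2 h3
      rw [parisi_dirac hβ' hqI]
      unfold parisi
      constructor
      · linarith
      · intro hne
        have h5 : ∃ t, distr ν t ≠ stp q t := by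
          by_contra hc
          push Not at hc
          exact hne (eq_dirac hν hc)
        have := h3 h5
        linarith
    intro μ
    constructor
    · rintro ⟨hμ1, hμ2⟩
      by_contra hne
      have h1 := (key μ hμ1).2 hne
      have h2 := hμ2 _ (onUnit_dirac.2 hqI)
      linarith
    · rintro rfl
      exact ⟨onUnit_dirac.2 hqI, fun ν hν => (key ν hν).1⟩
  -- the converse direction
  have easy : ∀ r : ℝ, IsParisiMeasure β h (Measure.dirac r) → ATCondition β h q := by
    rintro r ⟨hr1, hr2⟩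
    have hr : r ∈ Icc (0:ℝ) 1 := onUnit_dirac.1 hr1
    have hmin : ∀ ζ : ℝ → ℝ, IsCdf ζ → ∀ f, IsParisiSol β ζ f →
        gq β r 0 h - β ^ 2 * (∫ s in (0:ℝ)..1, stp r s * s) ≤
          f 0 h - β ^ 2 * ∫ s in (0:ℝ)..1, ζ s * s := by
      intro ζ hζ f hf
      obtain ⟨ν, hν, rfl⟩ := exists_measure hζ
      have h1 := hr2 ν hν
      rw [parisi_dirac hβ' hr] at h1
      have h2 := sol_unique hζ (solution_spec hβ' hν) hf 0 (by simp) h
      unfold parisi at h1
      rw [h2] at h1
      linarith
    obtain ⟨h1, h2⟩ := conv hβ' hr hmin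
    have h3 := conv_greatest hβ' hr h1 h2 hq
    rw [at_iff hβ, ← h3]
    exact h2
  refine ⟨q, by rw [fixedPoints_eq hβ]; exact hq, ⟨fun ⟨r, hr⟩ => easy r hr, fun hAT =>
    ⟨q, (hard hAT _).2 rfl⟩⟩, hard, fun μ hμ => ⟨?_, fun hAT => ⟨q, (hard hAT μ).1 hμ⟩⟩⟩
  rintro ⟨r, rfl⟩
  exact easy r hμ

end Pool.Agent.Results.MP_aa848e_pr.ATLine
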